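import Pool.Agent.H38.WT.Targets

/-!
# MP_0cb3c0_co, row DWB: from a chain of cuts to a display
-/

set_option autoImplicit false
set_option linter.unusedVariables false

namespace Pool.Agent.H7.WT

open Pool.Agent.H38.WT

/-- reachability inside a preconnected set -/
theorem reach_of_induce {V : Type} (U W : SimpleGraph V) (G : Set V)
    (hG : (U.induce G).Preconnected)
    (hW : ∀ a ∈ G, ∀ b ∈ G, U.Adj a b → W.Adj a b) :
    ∀ a ∈ G, ∀ b ∈ G, W.Reachable a b := by
  intro a ha b hb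
  have h1 := hG ⟨a, ha⟩ ⟨b, hb⟩
  exact h1.map (⟨Subtype.val, fun {x y} h => hW x x.2 y y.2 h⟩ : U.induce G →g W)

/-- the crossing edge of a cut of a tree is unique -/
theorem cross_unique {V : Type} (U : SimpleGraph V) (hU : U.IsTree) (G : Set V)
    (h1 : (U.induce G).Preconnected) (h2 : (U.induce Gᶜ).Preconnected) (u v u' v' : V)
    (hu : u ∈ G) (hv : v ∉ G) (huv : U.Adj u v) (hu' : u' ∈ G) (hv' : v' ∉ G)
    (huv' : U.Adj u' v') : u = u' ∧ v = v' := by
  by_contra hne
  have hs : s(u', v') ≠ s(u, v) := by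
    intro h
    rcases Sym2.eq_iff.1 h with ⟨a, b⟩ | ⟨a, b⟩
    · exact hne ⟨a.symm, b.symm⟩
    · exact hv (a ▸ hu')
  have hb := SimpleGraph.isAcyclic_iff_forall_adj_isBridge.1 hU.isAcyclic huv
  rw [SimpleGraph.isBridge_iff] at hb
  obtain ⟨W, hW⟩ : ∃ W, W = U.deleteEdges {s(u, v)} := ⟨_, rfl⟩
  have hWadj : ∀ a b, W.Adj a b ↔ U.Adj a b ∧ s(a, b) ≠ s(u, v) := by
    intro a b
    rw [hW, SimpleGraph.deleteEdges_adj]
    simp
  have r1 : W.Reachable u u' := by
    refine reach_of_induce U W G h1 (fun a ha b hb hab => (hWadj a b).2 ⟨hab, fun h => ?_⟩)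
      u hu u' hu'
    rcases Sym2.eq_iff.1 h with ⟨-, c⟩ | ⟨c, -⟩
    · exact hv (c ▸ hb)
    · exact hv (c ▸ ha)
  have r2 : W.Reachable v' v := by
    refine reach_of_induce U W Gᶜ h2 (fun a ha b hb hab => (hWadj a b).2 ⟨hab, fun h => ?_⟩)
      v' hv' v hv
    rcases Sym2.eq_iff.1 h with ⟨c, -⟩ | ⟨-, c⟩
    · exact ha (c ▸ hu)
    · exact hb (c ▸ hu)
  have r3 : W.Adj u' v' := (hWadj u' v').2 ⟨huv', hs⟩
  have r := (r1.trans r3.reachable).trans r2
  rw [hW] at r
  exact hb r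

/-- a preconnected set which meets both sides of `A` contains a crossing edge -/
theorem exists_cross {V : Type} (U : SimpleGraph V) (S A : Set V)
    (hS : (U.induce S).Preconnected) (x y : V) (hx : x ∈ S) (hy : y ∈ S) (hxA : x ∈ A)
    (hyA : y ∉ A) : ∃ u v, u ∈ S ∧ v ∈ S ∧ u ∈ A ∧ v ∉ A ∧ U.Adj u v := by
  obtain ⟨p⟩ := hS ⟨x, hx⟩ ⟨y, hy⟩
  obtain ⟨d, -, h1, h2⟩ := p.exists_boundary_dart {z | (z : V) ∈ A} hxA hyA
  exact ⟨d.fst, d.snd, d.fst.2, d.snd.2, h1, h2, d.adj⟩

theorem pf_DWB (h : T_CON) (h2 : T_CUT) : T_DWB := by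
  classical
  intro n m T U w g r hw hU hc
  have hmono : ∀ a b, a ≤ b → b ≤ n → g a ⊆ g b := by
    intro a b hab
    induction hab with
    | refl => intro _; exact subset_rfl
    | step hab ih =>
      intro hb
      rename_i b
      exact (ih (by omega)).trans (hc.sub b (by omega))
  have hex : ∀ v : Fin m, ∃ a, a < n ∧ v ∈ g (a + 1) ∧ v ∉ g a := by
    intro v
    have hn : n ≠ 0 := by
      intro h0
      have e1 := hc.last
      rw [h0, hc.zero] at e1
      have : v ∈ (∅ : Set (Fin m)) := by rw [e1]; exact Set.mem_univ v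
      exact this
    have hE : ∃ a, v ∈ g (a + 1) := ⟨n - 1, by
      rw [Nat.sub_add_cancel (by omega), hc.last]
      exact Set.mem_univ v⟩
    have h1 := Nat.find_spec hE
    have h3 : Nat.find hE ≤ n - 1 := Nat.find_min' hE (by
      rw [Nat.sub_add_cancel (by omega), hc.last]
      exact Set.mem_univ v)
    refine ⟨Nat.find hE, by omega, h1, fun hv => ?_⟩
    rcases Nat.eq_zero_or_pos (Nat.find hE) with h0 | h0
    · rw [h0, hc.zero] at hv
      exact hv
    · have := Nat.find_min hE (m := Nat.find hE - 1) (by omega)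
      rw [Nat.sub_add_cancel h0] at this
      exact this hv
  choose a ha1 ha2 ha3 using hex
  have huniq : ∀ v b, b < n → v ∈ g (b + 1) → v ∉ g b → a v = b := by
    intro v b hb h4 h5
    rcases lt_trichotomy (a v) b with h6 | h6 | h6
    · exact absurd (hmono (a v + 1) b (by omega) (by omega) (ha2 v)) h5
    · exact h6
    · exact absurd (hmono (b + 1) (a v) (by omega) (by have := ha1 v; omega) h4) (ha3 v)
  -- connected pieces
  have hup : ∀ b, 0 < b → b ≤ n → (U.induce (g b)).Preconnected := by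
    intro b hb0 hb
    rcases Nat.lt_or_eq_of_le hb with h4 | h4
    · exact (hc.cut b hb0 h4).2.2.1
    · rw [h4, hc.last]
      intro x y
      have := hU.connected.preconnected x.1 y.1
      exact this.map (⟨fun v => ⟨v, Set.mem_univ v⟩, fun {x y} h => h⟩ : U →g U.induce Set.univ)
  have hdn : ∀ b, b < n → (U.induce (g b)ᶜ).Preconnected := by
    intro b hb
    rcases Nat.eq_zero_or_pos b with h4 | h4
    · rw [h4, hc.zero, Set.compl_empty]
      intro x y
      have := hU.connected.preconnected x.1 y.1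
      exact this.map (⟨fun v => ⟨v, Set.mem_univ v⟩, fun {x y} h => h⟩ : U →g U.induce Set.univ)
    · exact (hc.cut b h4 hb).2.2.2
  have hint : ∀ b c, 0 < b → b ≤ n → c < n → (U.induce (g b ∩ (g c)ᶜ)).Preconnected :=
    fun b c hb0 hb hcn => h m U (g b) (g c)ᶜ hU (hup b hb0 hb) (hdn c hcn)
  -- the map
  obtain ⟨f, hf⟩ : ∃ f : Fin m → Fin n, f = fun v => w ⟨a v, ha1 v⟩ := ⟨_, rfl⟩
  have hfw : ∀ v (b : Fin n), f v = w b ↔ a v = (b : ℕ) := by
    intro v b
    rw [hf]
    show w ⟨a v, ha1 v⟩ = w b ↔ _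
    rw [w.injective.eq_iff]
    constructor
    · intro h4
      rw [← h4]
    · intro h4
      exact Fin.ext h4
  have hr : ∀ b : Fin n, a (r (w b)) = (b : ℕ) := fun b =>
    huniq _ _ b.2 (hc.mem b) (hc.nmem b)
  have hfib : ∀ b : Fin n, {v | f v = w b} = g ((b : ℕ) + 1) ∩ (g (b : ℕ))ᶜ := by
    intro b
    ext v
    show f v = w b ↔ _
    rw [hfw]
    constructor
    · intro h4
      rw [← h4]
      exact ⟨ha2 v, ha3 v⟩
    · rintro ⟨h4, h5⟩
      exact huniq v b b.2 h4 h5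
  -- the edge between consecutive fibers
  have hedge : ∀ b, b + 1 < n → ∃ u v, a u = b ∧ a v = b + 1 ∧ U.Adj u v := by
    intro b hb
    obtain ⟨x, hx⟩ : ∃ x, x = r (w ⟨b, by omega⟩) := ⟨_, rfl⟩
    obtain ⟨y, hy⟩ : ∃ y, y = r (w ⟨b + 1, hb⟩) := ⟨_, rfl⟩
    have hx1 : a x = b := by rw [hx]; exact hr ⟨b, by omega⟩
    have hy1 : a y = b + 1 := by rw [hy]; exact hr ⟨b + 1, hb⟩
    have hS := hint (b + 1 + 1) b (by omega) (by omega) (by omega)
    have x1 : x ∈ g (b + 1) := by have := ha2 x; rwa [hx1] at this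
    have x2 : x ∉ g b := by have := ha3 x; rwa [hx1] at this
    have y1 : y ∈ g (b + 1 + 1) := by have := ha2 y; rwa [hy1] at this
    have y2 : y ∉ g (b + 1) := by have := ha3 y; rwa [hy1] at this
    have hsub : g b ⊆ g (b + 1) := hmono _ _ (by omega) (by omega)
    have hsub2 : g (b + 1) ⊆ g (b + 1 + 1) := hmono _ _ (by omega) (by omega)
    obtain ⟨u, v, hu, hv, huA, hvA, huv⟩ := exists_cross U (g (b + 1 + 1) ∩ (g b)ᶜ) (g (b + 1)) hS
      x y ⟨hsub2 x1, x2⟩ ⟨y1, fun h4 => y2 (hsub h4)⟩ x1 y2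
    exact ⟨u, v, huniq u b (by omega) huA hu.2, huniq v (b + 1) hb hv.1 hvA, huv⟩
  -- edges join consecutive fibers only
  have hcons : ∀ u v, U.Adj u v → a u < a v → a v = a u + 1 := by
    intro u v huv hlt
    have hv := ha1 v
    obtain ⟨u0, v0, hu0, hv0, h0⟩ := hedge (a u) (by omega)
    have hcut := hc.cut (a u + 1) (by omega) (by omega)
    have hvn : v ∉ g (a u + 1) := fun h4 => ha3 v (hmono (a u + 1) (a v) (by omega) (by omega) h4)
    have hu0' : u0 ∈ g (a u + 1) := by have := ha2 u0; rwa [hu0] at this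
    have hv0' : v0 ∉ g (a u + 1) := by have := ha3 v0; rwa [hv0] at this
    have := (cross_unique U hU _ hcut.2.2.1 hcut.2.2.2 u v u0 v0 (ha2 u) hvn huv hu0' hv0' h0).2
    rw [this, hv0]
  refine ⟨f, hc.mono, ?_, ?_, ?_⟩
  · intro i
    obtain ⟨b, rfl⟩ := w.surjective i
    exact (hfw _ b).2 (hr b)
  · intro i
    obtain ⟨b, rfl⟩ := w.surjective i
    rw [hfib]
    have hp := hint ((b : ℕ) + 1) b (by omega) b.2 b.2
    exact { preconnected := hp, nonempty := ⟨⟨r (w b), hc.mem b, hc.nmem b⟩⟩ }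
  · intro i j hij
    obtain ⟨b, rfl⟩ := w.surjective i
    obtain ⟨c, rfl⟩ := w.surjective j
    rw [hw b c]
    constructor
    · rintro (h4 | h4)
      · obtain ⟨u, v, h5, h6, h7⟩ := hedge b (by rw [h4]; exact c.2)
        exact ⟨u, v, (hfw u b).2 h5, (hfw v c).2 (by rw [h6, h4]), h7⟩
      · obtain ⟨u, v, h5, h6, h7⟩ := hedge c (by rw [h4]; exact b.2)
        exact ⟨v, u, (hfw v b).2 (by rw [h6, h4]), (hfw u c).2 h5, h7.symm⟩
    · rintro ⟨u, v, h4, h5, h6⟩
      rw [hfw] at h4 h5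
      rcases lt_trichotomy (a u) (a v) with h7 | h7 | h7
      · left
        rw [← h4, ← h5]
        exact (hcons u v h6 h7).symm
      · exfalso
        exact hij (congrArg w (Fin.ext (by rw [← h4, ← h5, h7])))
      · right
        rw [← h4, ← h5]
        exact (hcons v u h6.symm h7).symm

end Pool.Agent.H7.WT
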